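import Pool.Agent.R393.UO.Core

/-!
Arbitrary families of forms of bounded degree; fields of characteristic zero.
-/

set_option autoImplicit false

namespace Pool.Agent.R393.UO

open MvPolynomial Pool.Agent.Y377.ST
open Pool.Agent.R849.PR (RatIn)

/-- indices of forms of degree at most `d` -/
abbrev JJ (n d : ℕ) : Type := Σ e : Fin (d + 1), Fin (mons (n + 1) (e : ℕ)).card

/-- coefficients of forms -/
noncomputable def cof (L : Type) [Field L] (n e : ℕ) :
    MvPolynomial (Fin n) L →ₗ[L] (mons n e → L) where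
  toFun P m := coeff (m : Fin n →₀ ℕ) P
  map_add' P Q := by
    funext m
    exact coeff_add _ _ _
  map_smul' c P := by
    funext m
    exact coeff_smul _ _ _

theorem reduce_one {L : Type} [Field L] {n : ℕ} {ι : Type} (F : ι → MvPolynomial (Fin n) L)
    (e : ℕ) : ∃ f : Fin (mons n e).card → MvPolynomial (Fin n) L, (∀ a, (f a).IsHomogeneous e) ∧
      (∀ a, f a ∈ Submodule.span L (Set.range F)) ∧
      ∀ i, (F i).IsHomogeneous e → F i ∈ Submodule.span L (Set.range f) := by
  classical
  set W : Submodule L (MvPolynomial (Fin n) L) :=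
    Submodule.span L {P | ∃ i, P = F i ∧ P.IsHomogeneous e} with hW
  have hWh : ∀ P ∈ W, P.IsHomogeneous e := by
    intro P hP
    have h1 : W ≤ homogeneousSubmodule (Fin n) L e := by
      rw [hW, Submodule.span_le]
      rintro P ⟨i, -, hP⟩
      exact hP
    exact h1 hP
  let Φ : W →ₗ[L] (mons n e → L) := (cof L n e).comp W.subtype
  have hΦ : Function.Injective Φ := by
    refine (injective_iff_map_eq_zero Φ).2 fun P hP => ?_
    apply Subtype.ext
    ext m
    rw [ZeroMemClass.coe_zero, coeff_zero]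
    by_contra h
    have h1 : m ∈ mons n e := (mem_mons m).2 (hWh P P.2 h)
    exact h (congrFun hP ⟨m, h1⟩)
  have hfin : Module.Finite L W := Module.Finite.of_injective Φ hΦ
  have hrank : Module.finrank L W ≤ (mons n e).card := by
    have h1 := LinearMap.finrank_le_finrank_of_injective hΦ
    rw [Module.finrank_fintype_fun_eq_card, Fintype.card_coe] at h1
    exact h1
  let b := Module.finBasis L W
  refine ⟨fun a => if h : (a : ℕ) < Module.finrank L W then (b ⟨a, h⟩ : MvPolynomial (Fin n) L)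
    else 0, fun a => ?_, fun a => ?_, fun i hi => ?_⟩
  · dsimp only
    split_ifs with h
    · exact hWh _ (b ⟨a, h⟩).2
    · exact isHomogeneous_zero _ _ _
  · dsimp only
    split_ifs with h
    · have h1 : W ≤ Submodule.span L (Set.range F) := by
        rw [hW]
        apply Submodule.span_mono
        rintro P ⟨i, rfl, -⟩
        exact ⟨i, rfl⟩
      exact h1 (b ⟨a, h⟩).2
    · exact Submodule.zero_mem _
  · have h1 : F i ∈ W := Submodule.subset_span ⟨i, rfl, hi⟩
    have h2 := b.sum_repr ⟨F i, h1⟩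
    have h3 := congrArg (fun w : W => (w : MvPolynomial (Fin n) L)) h2
    simp only [Submodule.coe_sum, Submodule.coe_smul] at h3
    rw [← h3]
    refine Submodule.sum_mem _ fun a _ => Submodule.smul_mem _ _ (Submodule.subset_span ?_)
    refine ⟨⟨a, a.2.trans_le hrank⟩, ?_⟩
    simp only [a.2, dif_pos]

theorem reduce {L : Type} [Field L] {n d : ℕ} {ι : Type} (F : ι → MvPolynomial (Fin (n + 1)) L)
    (hF : ∀ i, ∃ e, e ≤ d ∧ (F i).IsHomogeneous e) :
    ∃ f : JJ n d → MvPolynomial (Fin (n + 1)) L, (∀ a, (f a).IsHomogeneous (a.1 : ℕ)) ∧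
      (∀ a, f a ∈ Submodule.span L (Set.range F)) ∧
      ∀ i, F i ∈ Submodule.span L (Set.range f) := by
  choose f h1 h2 h3 using fun e : Fin (d + 1) => reduce_one F (e : ℕ)
  refine ⟨fun a => f a.1 a.2, fun a => h1 _ _, fun a => h2 _ _, fun i => ?_⟩
  obtain ⟨e, he, hi⟩ := hF i
  have h4 := h3 ⟨e, Nat.lt_succ_of_le he⟩ i hi
  refine Submodule.span_mono ?_ h4
  rintro _ ⟨a, rfl⟩
  exact ⟨⟨_, a⟩, rfl⟩

theorem aeval_span {L : Type} [Field L] {n : ℕ} {ι A : Type} [CommRing A] [Algebra L A]
    (f : ι → MvPolynomial (Fin n) L) (y : Fin n → A) (h : ∀ a, aeval y (f a) = 0)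
    {P : MvPolynomial (Fin n) L} (hP : P ∈ Submodule.span L (Set.range f)) : aeval y P = 0 := by
  have h2 : Submodule.span L (Set.range f) ≤
      LinearMap.ker (aeval y : MvPolynomial (Fin n) L →ₐ[L] A).toLinearMap := by
    rw [Submodule.span_le]
    rintro _ ⟨l', rfl⟩
    exact h l'
  exact h2 hP

/-- reduction to the families indexed by `JJ n d` -/
theorem reduce_all {L : Type} [Field L] {n d : ℕ} {ι κ : Type}
    (F : ι → MvPolynomial (Fin (n + 1)) L) (G : κ → MvPolynomial (Fin (n + 1)) L)
    (hF : ∀ i, ∃ e, e ≤ d ∧ (F i).IsHomogeneous e) (hG : ∀ i, ∃ e, e ≤ d ∧ (G i).IsHomogeneous e)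
    (h : RatIn F G) :
    ∃ f g : JJ n d → MvPolynomial (Fin (n + 1)) L, (∀ a, (f a).IsHomogeneous (a.1 : ℕ)) ∧
      (∀ a, (g a).IsHomogeneous (a.1 : ℕ)) ∧ RatIn f g ∧
      ∀ y : Fin (n + 1) → L, (∀ i, aeval y (F i) = 0) → (∀ a, aeval y (f a) = 0) ∧
        ((∃ l, aeval y (G l) ≠ 0) → ∃ a, aeval y (g a) ≠ 0) := by
  obtain ⟨f, f1, f2, f3⟩ := reduce F hF
  obtain ⟨g, g1, g2, g3⟩ := reduce G hG
  refine ⟨f, g, f1, g1, ?_, fun y hy => ⟨fun a => aeval_span F y hy (f2 a), fun hl => ?_⟩⟩
  · intro M _ _ p hp hc a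
    have h1 := h M p (fun i => aeval_span f p hp (f3 i)) hc
    exact aeval_span G p h1 (g2 a)
  · by_contra hcon
    push Not at hcon
    obtain ⟨l, hl⟩ := hl
    exact hl (aeval_span g y hcon (g3 l))

/-- rational curves and composita -/
theorem ratIn_comp {K L E : Type} [Field K] [Field L] [Field E] (i : K →+* L) (τ : K →+* E)
    {n : ℕ} {ι κ : Type} (F : ι → MvPolynomial (Fin (n + 1)) K)
    (G : κ → MvPolynomial (Fin (n + 1)) K) (h : RatIn (fun a => map i (F a)) (fun a => map i (G a))) :
    RatIn (fun a => map τ (F a)) (fun a => map τ (G a)) := by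
  intro M _ _ p hp hc l
  let _ : Algebra K L := i.toAlgebra
  let _ : Algebra K M := ((algebraMap E M).comp τ).toAlgebra
  have hinj : Function.Injective
      (Algebra.TensorProduct.includeRight : M →ₐ[K] TensorProduct K L M) :=
    Algebra.TensorProduct.includeRight_injective (algebraMap K L).injective
  have hnt : Nontrivial (TensorProduct K L M) := hinj.nontrivial
  obtain ⟨m, hm⟩ := Ideal.exists_maximal (TensorProduct K L M)
  let _ : Field (TensorProduct K L M ⧸ m) := Ideal.Quotient.field m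
  let φ : M →+* (TensorProduct K L M ⧸ m) := (Ideal.Quotient.mk m).comp
    (Algebra.TensorProduct.includeRight : M →ₐ[K] TensorProduct K L M).toRingHom
  let ψ : L →+* (TensorProduct K L M ⧸ m) := (Ideal.Quotient.mk m).comp
    (Algebra.TensorProduct.includeLeft : L →ₐ[K] TensorProduct K L M).toRingHom
  let _ : Algebra L (TensorProduct K L M ⧸ m) := ψ.toAlgebra
  have hcomm : ψ.comp i = (φ.comp (algebraMap E M)).comp τ := by
    ext c
    change Ideal.Quotient.mk m ((algebraMap K L c) ⊗ₜ[K] (1 : M)) =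
      Ideal.Quotient.mk m ((1 : L) ⊗ₜ[K] (algebraMap K M c))
    congr 1
    rw [Algebra.algebraMap_eq_smul_one, Algebra.algebraMap_eq_smul_one, TensorProduct.smul_tmul]
  have key : ∀ P : MvPolynomial (Fin (n + 1)) K,
      (aeval (fun j => (p j).map φ) (map i P) : Polynomial (TensorProduct K L M ⧸ m)) =
        (aeval p (map τ P) : Polynomial M).map φ := by
    intro P
    rw [← Polynomial.coe_mapRingHom, aeval_def, aeval_def, hom_eval₂, eval₂_map, eval₂_map]
    congr 1
    have h1 : (algebraMap L (Polynomial (TensorProduct K L M ⧸ m))).comp i =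
        Polynomial.C.comp (ψ.comp i) := by
      ext c : 1
      simp only [RingHom.comp_apply, Polynomial.algebraMap_apply]
      rfl
    rw [h1, hcomm]
    ext c : 1
    simp only [RingHom.comp_apply, Polynomial.coe_mapRingHom, Polynomial.algebraMap_apply,
      Polynomial.map_C]
  have hev : ∀ j t, ((p j).map φ).eval (φ t) = φ ((p j).eval t) := fun j t =>
    Polynomial.eval_map_apply ..
  have h1 := h (TensorProduct K L M ⧸ m) (fun j => (p j).map φ) (fun a => by
    rw [key, hp a, Polynomial.map_zero]) (by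
    obtain ⟨t, s, u, v, huv⟩ := hc
    refine ⟨φ t, φ s, u, v, fun h2 => huv ?_⟩
    rw [hev, hev, hev, hev, ← map_mul, ← map_mul] at h2
    exact φ.injective h2) l
  rw [key] at h1
  exact (Polynomial.map_eq_zero_iff φ.injective).1 h1

end Pool.Agent.R393.UO
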