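import Pool.Agent.R393.UO.Des
import Pool.Agent.R849.PR.Tfae

/-!
The equivalences.
-/

set_option autoImplicit false

namespace Pool.Agent.R393.UO

open MvPolynomial Pool.Agent.Y377.ST
open Pool.Agent.R849.PR (RatIn ptsOf overK curve_of_not exists_coeff_bound pts_inf)
open Pool.Agent.H533R3.SL (cur)
open scoped NumberField

/-- polynomials in one variable -/
theorem pev_polyL {L ι : Type} [Field L] [Fintype ι] [DecidableEq ι] (v0 : ι) (q : Polynomial L)
    {e : ℕ} (he : q.natDegree ≤ e) :
    ∃ c : (ι → Fin (e + 1)) → L, ∀ w : ι → L, pev c w = q.eval (w v0) := by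
  classical
  refine ⟨fun m => if m = Pi.single v0 (m v0) then q.coeff (m v0) else 0, fun w => ?_⟩
  rw [Polynomial.eval_eq_sum_range' (Nat.lt_succ_of_le he), Finset.sum_range]
  unfold pev
  symm
  refine Finset.sum_of_injOn (fun a : Fin (e + 1) => (Pi.single v0 a : ι → Fin (e + 1))) ?_ ?_ ?_ ?_
  · intro a _ b _ hab
    have := congrFun hab v0
    simpa using this
  · intro a _
    exact Finset.mem_coe.2 (Finset.mem_univ _)
  · intro m _ hm
    have h1 : ¬ m = Pi.single v0 (m v0) := fun h =>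
      hm ⟨m v0, Finset.mem_coe.2 (Finset.mem_univ _), h.symm⟩
    simp only [h1, if_false, zero_mul]
  · intro a _
    simp only [Pi.single_eq_same, if_true]
    congr 1
    rw [Finset.prod_eq_single v0]
    · rw [Pi.single_eq_same]
    · intro b _ hb
      rw [Pi.single_eq_of_ne hb]
      simp
    · intro h
      exact absurd (Finset.mem_univ _) h

/-- values of polynomials at the integers -/
theorem iterVec_poly {L : Type} [Field L] {n : ℕ} (q : Fin n → Polynomial L) :
    ∃ e, IterVec 1 2 e (fun (m : Multiplicative ℤ) i =>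
      (q i).eval ((Multiplicative.toAdd m : ℤ) : L)) := by
  obtain ⟨e, he⟩ : ∃ e, ∀ i, (q i).natDegree ≤ e := by
    refine ⟨∑ i, (q i).natDegree, fun i => ?_⟩
    exact Finset.single_le_sum (f := fun i => (q i).natDegree) (fun _ _ => Nat.zero_le _)
      (Finset.mem_univ i)
  let X : Fin 1 → Multiplicative ℤ → Matrix (Fin 2) (Fin 2) L := fun _ m =>
    !![1, ((Multiplicative.toAdd m : ℤ) : L); 0, 1]
  let Y : Fin 1 → Multiplicative ℤ → Matrix (Fin 2) (Fin 2) L := fun _ m =>
    !![1, -((Multiplicative.toAdd m : ℤ) : L); 0, 1]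
  refine ⟨e, X, Y, ⟨?_, ?_⟩, ?_⟩
  · intro l z
    ext i j
    fin_cases i <;> fin_cases j <;> simp [X, Y, Matrix.mul_apply, Fin.sum_univ_two]
  · intro l g i j
    refine ⟨fun m => if m = 0 then X 0 g i j else 0, fun h => ?_⟩
    rw [pev_const]
    fin_cases i <;> fin_cases j <;> simp [X, Y, Matrix.mul_apply, Fin.sum_univ_two]
  · intro j
    obtain ⟨c, hc⟩ := pev_polyL (L := L) (ι := Ix 1 2) (0, true, 0, 1) (q j) (he j)
    refine ⟨c, fun z => ?_⟩
    rw [hc]
    simp [entries, X]

section gen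

variable {k : Type} [Field k] {ι κ : Type} {n : ℕ}

/-- All families on `F = 0`, indexed by groups and given by iterated recurrences of complexity
`(s, r, e)`, over all extensions `L` of `k`, have at most `B n d s r e` points off `G = 0`. -/
def FamiliesBounded (B : ℕ → ℕ → ℕ → ℕ → ℕ → ℕ) (d : ℕ) (F : ι → MvPolynomial (Fin (n + 1)) k)
    (G : κ → MvPolynomial (Fin (n + 1)) k) : Prop :=
  ∀ (s r e : ℕ) (L : Type) [Field L] [Algebra k L] (H : Type) [Group H]
    (x : H → Fin (n + 1) → L), IterVec s r e x → (∀ h i, aeval (x h) (F i) = 0) →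
    (offPts G x).encard ≤ B n d s r e

/-- All sequences on `F = 0`, indexed by the integers and given by recurrences of complexity
`(1, 2, e)`, over all extensions `L` of `k`, have finitely many points off `G = 0`. -/
def SequencesFinite (F : ι → MvPolynomial (Fin (n + 1)) k)
    (G : κ → MvPolynomial (Fin (n + 1)) k) : Prop :=
  ∀ (e : ℕ) (L : Type) [Field L] [Algebra k L] (x : Multiplicative ℤ → Fin (n + 1) → L),
    IterVec 1 2 e x → (∀ h i, aeval (x h) (F i) = 0) → (offPts G x).Finite

/-- The same over number fields. -/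
def SequencesFiniteNF (F : ι → MvPolynomial (Fin (n + 1)) k)
    (G : κ → MvPolynomial (Fin (n + 1)) k) : Prop :=
  ∀ (e : ℕ) (L : Type) [Field L] [NumberField L] [Algebra k L]
    (x : Multiplicative ℤ → Fin (n + 1) → L),
    IterVec 1 2 e x → (∀ h i, aeval (x h) (F i) = 0) → (offPts G x).Finite

theorem bounded_of_rat [CharZero k] {d : ℕ} (F : ι → MvPolynomial (Fin (n + 1)) k)
    (G : κ → MvPolynomial (Fin (n + 1)) k)
    (hF : ∀ i, ∃ e, e ≤ d ∧ (F i).IsHomogeneous e) (hG : ∀ i, ∃ e, e ≤ d ∧ (G i).IsHomogeneous e)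
    (h : RatIn F G) : FamiliesBounded BB d F G := by
  intro s r e L _ _ H _ x hx hX
  have : CharZero L := charZero_of_injective_algebraMap (algebraMap k L).injective
  have h1 : RatIn (fun a => map (algebraMap k L) (F a)) (fun a => map (algebraMap k L) (G a)) := by
    apply ratIn_comp (RingHom.id k) (algebraMap k L) F G
    have e1 : (fun a => map (RingHom.id k) (F a)) = F := funext fun a => map_id _
    have e2 : (fun a => map (RingHom.id k) (G a)) = G := funext fun a => map_id _
    rw [e1, e2]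
    exact h
  have h2 := gen (d := d) (fun a => map (algebraMap k L) (F a))
    (fun a => map (algebraMap k L) (G a))
    (fun i => by obtain ⟨e, he, hi⟩ := hF i; exact ⟨e, he, hi.map _⟩)
    (fun i => by obtain ⟨e, he, hi⟩ := hG i; exact ⟨e, he, hi.map _⟩) h1 s r e H x hx
    (fun h i => by rw [aeval_map_algebraMap]; exact hX h i)
  refine (Set.encard_le_encard ?_).trans h2
  rintro P ⟨h, h0, ⟨l, hl⟩, hP⟩
  exact ⟨h, h0, ⟨l, by rw [aeval_map_algebraMap]; exact hl⟩, hP⟩

theorem seq_of_bounded {B : ℕ → ℕ → ℕ → ℕ → ℕ → ℕ} {d : ℕ}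
    {F : ι → MvPolynomial (Fin (n + 1)) k} {G : κ → MvPolynomial (Fin (n + 1)) k}
    (h : FamiliesBounded B d F G) : SequencesFinite F G := fun e L _ _ x hx hX =>
  Set.finite_of_encard_le_coe (h 1 2 e L (Multiplicative ℤ) x hx hX)

/-- a nonconstant polynomial curve has infinitely many points with integral parameter -/
theorem curve_seq {L : Type} [Field L] [Algebra k L] [CharZero L]
    (F : ι → MvPolynomial (Fin (n + 1)) k) (G : κ → MvPolynomial (Fin (n + 1)) k) (l0 : κ) {M : ℕ}
    (v : Fin M → Fin (n + 1) → L) (hF : ∀ i, aeval (cur v (fun j => (j : ℕ))) (F i) = 0)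
    (hc : ∃ i j, cur v (fun j => (j : ℕ)) i * Polynomial.C ((cur v (fun j => (j : ℕ)) j).eval 1) ≠
        cur v (fun j => (j : ℕ)) j * Polynomial.C ((cur v (fun j => (j : ℕ)) i).eval 1))
    (hG : aeval (fun i => (cur v (fun j => (j : ℕ)) i).eval 1) (G l0) ≠ 0) :
    ∃ (e : ℕ) (x : Multiplicative ℤ → Fin (n + 1) → L), IterVec 1 2 e x ∧
      (∀ h i, aeval (x h) (F i) = 0) ∧ (offPts G x).Infinite := by
  obtain ⟨e, he⟩ := iterVec_poly (cur v (fun j => (j : ℕ)))
  refine ⟨e, _, he, fun h i => ?_, ?_⟩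
  · rw [ev_poly, hF i, Polynomial.eval_zero]
  · refine (pts_inf F G l0 v hF hc hG (Set.range fun m : ℤ => (m : L))
      (Set.infinite_range_of_injective Int.cast_injective)).mono ?_
    rintro P ⟨t, ⟨_, ⟨m, rfl⟩, ht⟩, h1, h2, h3, h4⟩
    have e1 : (fun a => ∑ j, t j * v j a) = fun a =>
        (cur v (fun j => (j : ℕ)) a).eval ((m : ℤ) : L) := by
      funext a
      unfold Pool.Agent.H533R3.SL.cur
      rw [Polynomial.eval_finsetSum]
      refine Finset.sum_congr rfl fun j _ => ?_
      rw [ht j, Polynomial.eval_mul, Polynomial.eval_C, Polynomial.eval_pow, Polynomial.eval_X]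
      ring
    refine ⟨Multiplicative.ofAdd m, ?_, ?_, ?_⟩
    · intro h5
      apply h3
      rw [e1]
      exact h5
    · obtain ⟨l, hl⟩ := h2
      rw [e1] at hl
      exact ⟨l, hl⟩
    · rw [h4]
      congr 1

theorem rat_of_seq [CharZero k] (F : ι → MvPolynomial (Fin (n + 1)) k)
    (G : κ → MvPolynomial (Fin (n + 1)) k) (h : SequencesFinite F G) : RatIn F G := by
  by_contra hcon
  obtain ⟨L, _, _, p, l0, hp, hc, hG⟩ := curve_of_not F G hcon
  obtain ⟨M, -, hM⟩ := exists_coeff_bound p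
  rw [← hM] at hp hc hG
  have : CharZero L := charZero_of_injective_algebraMap (algebraMap k L).injective
  obtain ⟨e, x, h1, h2, h3⟩ := curve_seq F G l0 _ hp hc hG
  exact h3 (h e L x h1 h2)

theorem rat_of_seqNF [NumberField k] (F : ι → MvPolynomial (Fin (n + 1)) k)
    (G : κ → MvPolynomial (Fin (n + 1)) k) (h : SequencesFiniteNF F G) : RatIn F G := by
  by_contra hcon
  obtain ⟨L, _, _, p, l0, hp, hc, hG⟩ := curve_of_not F G hcon
  obtain ⟨N, hN, -⟩ := exists_coeff_bound p
  obtain ⟨M, iF, iN, iA, v, hv1, hv2, hv3⟩ :=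
    Pool.Agent.TH409.SH.specialise (n := n) k L p (Set.range F)
      (by
        rintro _ ⟨i, rfl⟩
        exact hp i) N hN hc (G l0) hG
  obtain ⟨e, x, h1, h2, h3⟩ := curve_seq F G l0 v (fun i => hv1 _ ⟨i, rfl⟩) hv2 hv3
  exact h3 (h e M x h1 h2)

end gen

end Pool.Agent.R393.UO
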