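import Mathlib

/-!
Limits of sequences of complex numbers: forms, the field of limits.
-/

set_option autoImplicit false

namespace Pool.Agent.R393.UO

open MvPolynomial

/-- the monomials of degree `e` -/
noncomputable def mons (n e : ℕ) : Finset (Fin n →₀ ℕ) :=
  (Finsupp.finite_of_nat_weight_eq (1 : Fin n → ℕ) (fun _ => one_ne_zero) e).toFinset

theorem mem_mons {n e : ℕ} (m : Fin n →₀ ℕ) : m ∈ mons n e ↔ Finsupp.weight (1 : Fin n → ℕ) m = e := by
  unfold mons
  rw [Set.Finite.mem_toFinset]
  rfl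

/-- the form with coefficients sequences -/
noncomputable def tld {n : ℕ} (e : ℕ) (F : ℕ → MvPolynomial (Fin n) ℂ) :
    MvPolynomial (Fin n) (ℕ → ℂ) :=
  ∑ m ∈ mons n e, monomial m fun i => coeff m (F i)

theorem coeff_tld {n : ℕ} (e : ℕ) (F : ℕ → MvPolynomial (Fin n) ℂ) (m : Fin n →₀ ℕ) :
    coeff m (tld e F) = if m ∈ mons n e then fun i => coeff m (F i) else 0 := by
  classical
  unfold tld
  rw [coeff_sum]
  simp only [coeff_monomial]
  rw [Finset.sum_ite_eq' (mons n e) m]

theorem tld_hom {n : ℕ} (e : ℕ) (F : ℕ → MvPolynomial (Fin n) ℂ) : (tld e F).IsHomogeneous e := by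
  intro m hm
  rw [coeff_tld] at hm
  split_ifs at hm with h
  · exact (mem_mons m).1 h
  · exact absurd rfl hm

theorem tld_map {n : ℕ} {e : ℕ} {F : ℕ → MvPolynomial (Fin n) ℂ} (hF : ∀ i, (F i).IsHomogeneous e)
    (i : ℕ) : map (Pi.evalRingHom (fun _ : ℕ => ℂ) i) (tld e F) = F i := by
  ext m
  rw [coeff_map, coeff_tld]
  split_ifs with h
  · rfl
  · rw [map_zero]
    by_contra h1
    exact h ((mem_mons m).2 (hF i (Ne.symm h1)))

theorem eval_map_hom {A B : Type} [CommRing A] [CommRing B] (φ : A →+* B) {n : ℕ}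
    (x : Fin n → A) (F : MvPolynomial (Fin n) A) :
    eval (fun j => φ (x j)) (map φ F) = φ (eval x F) := by
  have h := eval₂_comp_left φ (RingHom.id A) x F
  rw [eval_map]
  exact h.symm

section theta

variable {Θ : (ℕ → ℂ) →+* ℂ}

/-- the field of the limits -/
noncomputable def kap (Θ : (ℕ → ℂ) →+* ℂ) : Subfield ℂ where
  toSubring := Θ.range
  inv_mem' := by
    rintro _ ⟨a, rfl⟩
    refine ⟨a⁻¹, ?_⟩
    have h1 : a * a⁻¹ * a = a := by
      funext i
      change a i * (a i)⁻¹ * a i = a i
      by_cases h : a i = 0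
      · rw [h]; simp
      · rw [mul_inv_cancel₀ h, one_mul]
    have h2 : a⁻¹ * a * a⁻¹ = a⁻¹ := by
      funext i
      change (a i)⁻¹ * a i * (a i)⁻¹ = (a i)⁻¹
      by_cases h : a i = 0
      · rw [h]; simp
      · rw [inv_mul_cancel₀ h, one_mul]
    by_cases h : Θ a = 0
    · have h3 := congrArg Θ h2
      rw [map_mul, map_mul, h, mul_zero, zero_mul] at h3
      rw [← h3, h, inv_zero]
    · have h3 := congrArg Θ h1
      rw [map_mul, map_mul] at h3
      have h4 : Θ a * Θ a⁻¹ = 1 := by
        apply mul_right_cancel₀ h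
        rw [h3, one_mul]
      exact eq_inv_of_mul_eq_one_right h4

/-- the homomorphism to the field of the limits -/
noncomputable def thK (Θ : (ℕ → ℂ) →+* ℂ) : (ℕ → ℂ) →+* kap Θ := Θ.rangeRestrict

theorem thK_val (a : ℕ → ℂ) : ((thK Θ a : kap Θ) : ℂ) = Θ a := rfl

theorem thK_surj : Function.Surjective (thK Θ) := Θ.rangeRestrict_surjective

instance : IsAlgClosed (kap Θ) := by
  apply IsAlgClosed.of_exists_root
  intro p hp hirr
  have hd : p.natDegree ≠ 0 := by
    intro h0
    have := Polynomial.natDegree_pos_iff_degree_pos.2 (Polynomial.degree_pos_of_irreducible hirr)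
    omega
  choose a ha using fun m : ℕ => thK_surj (Θ := Θ) (p.coeff m)
  let P : ℕ → Polynomial ℂ := fun i =>
    Polynomial.X ^ p.natDegree + ∑ m ∈ Finset.range p.natDegree, Polynomial.C (a m i) * Polynomial.X ^ m
  have hP : ∀ i, ∃ z : ℂ, (P i).eval z = 0 := by
    intro i
    apply IsAlgClosed.exists_root
    have h1 : (∑ m ∈ Finset.range p.natDegree, Polynomial.C (a m i) * Polynomial.X ^ m).degree <
        ((Polynomial.X : Polynomial ℂ) ^ p.natDegree).degree := by
      rw [Polynomial.degree_X_pow]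
      refine (Polynomial.degree_sum_le _ _).trans_lt ?_
      rw [Finset.sup_lt_iff (WithBot.bot_lt_coe _)]
      intro m hm
      refine (Polynomial.degree_C_mul_X_pow_le _ _).trans_lt ?_
      exact_mod_cast Finset.mem_range.1 hm
    rw [Polynomial.degree_add_eq_left_of_degree_lt h1, Polynomial.degree_X_pow]
    exact_mod_cast hd
  choose z hz using hP
  refine ⟨thK Θ z, ?_⟩
  have h2 : p = Polynomial.X ^ p.natDegree +
      ∑ m ∈ Finset.range p.natDegree, Polynomial.C (thK Θ (a m)) * Polynomial.X ^ m := by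
    conv_lhs => rw [hp.as_sum]
    simp only [ha]
  have h3 : (z ^ p.natDegree + ∑ m ∈ Finset.range p.natDegree, a m * z ^ m : ℕ → ℂ) = 0 := by
    funext i
    have h4 := hz i
    simp only [P, Polynomial.eval_add, Polynomial.eval_pow, Polynomial.eval_X,
      Polynomial.eval_finsetSum, Polynomial.eval_mul, Polynomial.eval_C] at h4
    rw [Pi.add_apply, Finset.sum_apply]
    exact h4
  have h4 := congrArg (thK Θ) h3
  rw [map_zero, map_add, map_pow, map_sum] at h4
  rw [h2, Polynomial.eval_add, Polynomial.eval_pow, Polynomial.eval_X, Polynomial.eval_finsetSum]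
  simp only [Polynomial.eval_mul, Polynomial.eval_C, Polynomial.eval_pow, Polynomial.eval_X]
  rw [← h4]
  simp only [map_mul, map_pow]

/-- finitely many equations and an inequality hold for some index -/
theorem los {J : Type} [Fintype J] (a : J → ℕ → ℂ) (ha : ∀ j, Θ (a j) = 0) (u : ℕ → ℂ)
    (hu : Θ u ≠ 0) : ∃ i, (∀ j, a j i = 0) ∧ u i ≠ 0 := by
  classical
  by_contra hcon
  push Not at hcon
  -- the indicator of the set where `u` vanishes
  let v : ℕ → ℂ := fun i => if u i = 0 then 1 else 0
  have hv : Θ v = 0 := by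
    have h1 : v * u = 0 := by
      funext i
      change (if u i = 0 then (1 : ℂ) else 0) * u i = 0
      split_ifs with h
      · rw [h, mul_zero]
      · rw [zero_mul]
    have h2 := congrArg Θ h1
    rw [map_mul, map_zero] at h2
    exact (mul_eq_zero.1 h2).resolve_right hu
  have h1 : ∀ i, u i ≠ 0 → ∃ j, a j i ≠ 0 := by
    intro i hi
    by_contra h2
    push Not at h2
    exact hi (hcon i h2)
  rcases isEmpty_or_nonempty J with hJ | hJ
  · apply hu
    have h2 : u = 0 := by
      funext i
      by_contra h3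
      obtain ⟨j, -⟩ := h1 i h3
      exact hJ.elim j
    rw [h2, map_zero]
  choose! J' hJ' using h1
  let w : J → ℕ → ℂ := fun j i => if u i ≠ 0 ∧ J' i = j then (a j i)⁻¹ else 0
  have h2 : (1 : ℕ → ℂ) = v + ∑ j, w j * a j := by
    funext i
    rw [Pi.add_apply, Finset.sum_apply]
    change 1 = (if u i = 0 then (1 : ℂ) else 0) +
      ∑ j, (if u i ≠ 0 ∧ J' i = j then (a j i)⁻¹ else 0) * a j i
    by_cases h : u i = 0
    · rw [if_pos h, Finset.sum_eq_zero, add_zero]
      intro j _
      rw [if_neg (fun h' => h'.1 h), zero_mul]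
    · rw [if_neg h, zero_add, Finset.sum_eq_single (J' i)]
      · rw [if_pos ⟨h, rfl⟩, inv_mul_cancel₀ (hJ' i h)]
      · intro j _ hj
        rw [if_neg (fun h' => hj h'.2.symm), zero_mul]
      · intro h'
        exact absurd (Finset.mem_univ _) h'
  have h3 := congrArg Θ h2
  rw [map_one, map_add, hv, map_sum, zero_add] at h3
  rw [Finset.sum_eq_zero (fun j _ => by rw [map_mul, ha j, mul_zero])] at h3
  exact one_ne_zero h3

end theta

end Pool.Agent.R393.UO
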