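import Pool.Agent.R393.UO.Trans
import Pool.Agent.R849.PR.Defs
import Pool.Agent.Y377.ST.Conv

/-!
The uniform bound for families of points over the complex numbers.
-/

set_option autoImplicit false

namespace Pool.Agent.R393.UO

open MvPolynomial Pool.Agent.Y377.EL Pool.Agent.Y377.IL Pool.Agent.Y377.IR Pool.Agent.Y377.ST
open Pool.Agent.R849.PR (RatIn)

/-- The points with the homogeneous coordinates `x(h)`, `x(h) ≠ 0`, which are not zeros of all the
forms `G_l`. -/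
def offPts {k L H κ : Type} [Field k] [Field L] [Algebra k L] {n : ℕ}
    (G : κ → MvPolynomial (Fin (n + 1)) k) (x : H → Fin (n + 1) → L) :
    Set (Projectivization L (Fin (n + 1) → L)) :=
  {P | ∃ (h : H) (h0 : x h ≠ 0), (∃ l, aeval (x h) (G l) ≠ 0) ∧
    P = Projectivization.mk L (x h) h0}

/-- evaluation along a polynomial curve -/
theorem ev_poly {k : Type} [Field k] {n : ℕ} {L : Type} [Field L] [Algebra k L]
    (p : Fin (n + 1) → Polynomial L) (P : MvPolynomial (Fin (n + 1)) k) (t : L) :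
    aeval (fun j => (p j).eval t) P = (aeval p P : Polynomial L).eval t := by
  have h1 : (aeval p P : Polynomial L).eval t =
      MvPolynomial.eval₂ ((Polynomial.evalRingHom t).comp (algebraMap k (Polynomial L)))
        (fun i => Polynomial.evalRingHom t (p i)) P := by
    rw [MvPolynomial.aeval_def]
    exact MvPolynomial.hom_eval₂ P _ (Polynomial.evalRingHom t) _
  rw [h1, MvPolynomial.aeval_def]
  congr 1
  refine RingHom.ext fun a => ?_
  show _ = Polynomial.eval t (algebraMap k (Polynomial L) a)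
  rw [Polynomial.algebraMap_apply]
  show _ = Polynomial.eval t (Polynomial.C _)
  rw [Polynomial.eval_C]

theorem exists_pts {α : Type} {S : Set α} {T : ℕ} (h : (T : ℕ∞) < S.encard) :
    ∃ P : ℕ → α, (∀ j, j ≤ T → P j ∈ S) ∧ ∀ j j', j ≤ T → j' ≤ T → P j = P j' → j = j' := by
  classical
  have h1 : ((T + 1 : ℕ) : ℕ∞) ≤ S.encard := by
    have := Order.add_one_le_of_lt h
    exact_mod_cast this
  obtain ⟨t, ht1, ht2⟩ := Set.exists_subset_encard_eq h1
  have htf : t.Finite := Set.finite_of_encard_eq_coe ht2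
  have hcard : htf.toFinset.card = T + 1 := by
    have h2 := htf.encard_eq_coe_toFinset_card
    rw [ht2] at h2
    exact_mod_cast h2.symm
  let e := (Finset.equivFinOfCardEq hcard).symm
  refine ⟨fun j => if hj : j < T + 1 then ((e ⟨j, hj⟩ : htf.toFinset) : α)
    else ((e ⟨0, Nat.succ_pos T⟩ : htf.toFinset) : α), fun j hj => ?_, fun j j' hj hj' hjj => ?_⟩
  · have hj1 : j < T + 1 := Nat.lt_succ_of_le hj
    simp only [dif_pos hj1]
    exact ht1 ((htf.mem_toFinset).1 (e ⟨j, hj1⟩).2)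
  · have hj1 : j < T + 1 := Nat.lt_succ_of_le hj
    have hj2 : j' < T + 1 := Nat.lt_succ_of_le hj'
    simp only [dif_pos hj1, dif_pos hj2] at hjj
    have h3 := e.injective (Subtype.ext hjj)
    exact congrArg Fin.val h3

theorem exists_members {n : ℕ} {κ : Type} {G : κ → MvPolynomial (Fin (n + 1)) ℂ} {H : Type}
    {x : H → Fin (n + 1) → ℂ} {T : ℕ} (h : (T : ℕ∞) < (offPts G x).encard) :
    ∃ hs : ℕ → H, (∀ j, j ≤ T → ∃ l, aeval (x (hs j)) (G l) ≠ 0) ∧
      (∀ j, j ≤ T → x (hs j) ≠ 0) ∧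
      ∀ j j', j ≤ T → j' ≤ T → j ≠ j' →
        ∃ u v, x (hs j) u * x (hs j') v ≠ x (hs j) v * x (hs j') u := by
  classical
  obtain ⟨P, hP1, hP2⟩ := exists_pts h
  obtain ⟨h00, -⟩ := hP1 0 (Nat.zero_le _)
  have hex : ∀ j, ∃ h : H, j ≤ T → ∃ h0 : x h ≠ 0, (∃ l, aeval (x h) (G l) ≠ 0) ∧
      P j = Projectivization.mk ℂ (x h) h0 := by
    intro j
    by_cases hj : j ≤ T
    · obtain ⟨h, h0, h1, h2⟩ := hP1 j hj
      exact ⟨h, fun _ => ⟨h0, h1, h2⟩⟩
    · exact ⟨h00, fun h1 => absurd h1 hj⟩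
  choose hs hhs using hex
  refine ⟨hs, fun j hj => (hhs j hj).2.1, fun j hj => (hhs j hj).1, fun j j' hj hj' hne => ?_⟩
  by_contra hcon
  push Not at hcon
  obtain ⟨h0, -, h1⟩ := hhs j hj
  obtain ⟨h0', -, h1'⟩ := hhs j' hj'
  apply hne
  apply hP2 j j' hj hj'
  rw [h1, h1', Projectivization.mk_eq_mk_iff']
  obtain ⟨v0, hv0⟩ := Function.ne_iff.1 h0'
  have hv0' : x (hs j') v0 ≠ 0 := hv0
  refine ⟨x (hs j) v0 / x (hs j') v0, ?_⟩
  funext u
  rw [Pi.smul_apply, smul_eq_mul]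
  have h2 := hcon u v0
  rw [div_mul_eq_mul_div, ← h2, mul_div_assoc, div_self hv0', mul_one]

/-- **The uniform bound over the complex numbers.** -/
theorem core {n : ℕ} {ι κ : Type} [Fintype ι] [Fintype κ] (dF : ι → ℕ) (dG : κ → ℕ) (s r e : ℕ) :
    ∃ B : ℕ, ∀ (F : ι → MvPolynomial (Fin (n + 1)) ℂ) (G : κ → MvPolynomial (Fin (n + 1)) ℂ),
      (∀ i, (F i).IsHomogeneous (dF i)) → (∀ l, (G l).IsHomogeneous (dG l)) → RatIn F G →
      ∀ (H : Type) [Group H] (x : H → Fin (n + 1) → ℂ), IterVec s r e x →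
        (∀ h i, aeval (x h) (F i) = 0) → (offPts G x).encard ≤ B := by
  classical
  by_contra hcon
  have hC : ∀ T : ℕ, ∃ (F : ι → MvPolynomial (Fin (n + 1)) ℂ)
      (G : κ → MvPolynomial (Fin (n + 1)) ℂ) (H : Type) (_ : Group H) (x : H → Fin (n + 1) → ℂ)
      (hs : ℕ → H), (∀ i, (F i).IsHomogeneous (dF i)) ∧ (∀ l, (G l).IsHomogeneous (dG l)) ∧
        RatIn F G ∧ IterVec s r e x ∧ (∀ h i, aeval (x h) (F i) = 0) ∧
        (∀ j, j ≤ T → ∃ l, aeval (x (hs j)) (G l) ≠ 0) ∧ (∀ j, j ≤ T → x (hs j) ≠ 0) ∧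
        ∀ j j', j ≤ T → j' ≤ T → j ≠ j' →
          ∃ u v, x (hs j) u * x (hs j') v ≠ x (hs j) v * x (hs j') u := by
    intro T
    by_contra h1
    apply hcon
    refine ⟨T, fun F G hF hG hrat H _ x hx hX => ?_⟩
    by_contra h2
    obtain ⟨hs, h3, h4, h5⟩ := exists_members (not_le.1 h2)
    exact h1 ⟨F, G, H, inferInstance, x, hs, hF, hG, hrat, hx, hX, h3, h4, h5⟩
  choose F G Hs iH x hs hF hG hrat hx hX hGne h0 hnp using hC
  obtain ⟨Θ, hΘ⟩ := Pool.Agent.Y455.ST.t_THETA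
  let xs : (∀ i, Hs i) → Fin (n + 1) → ℂ := fun h j => Θ fun i => x i (h i) j
  have hxs : IterVec s r e xs := (IterVec.prod hx).map Θ
  let Fl : ι → MvPolynomial (Fin (n + 1)) (ℕ → ℂ) := fun i => tld (dF i) fun T => F T i
  let Gl : κ → MvPolynomial (Fin (n + 1)) (ℕ → ℂ) := fun l => tld (dG l) fun T => G T l
  have hFlm : ∀ i T, map (Pi.evalRingHom (fun _ : ℕ => ℂ) T) (Fl i) = F T i := fun i T =>
    tld_map (F := fun T => F T i) (fun T => hF T i) T
  have hGlm : ∀ l T, map (Pi.evalRingHom (fun _ : ℕ => ℂ) T) (Gl l) = G T l := fun l T =>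
    tld_map (F := fun T => G T l) (fun T => hG T l) T
  have key : ∀ (P : MvPolynomial (Fin (n + 1)) (ℕ → ℂ)) (h : ∀ i, Hs i),
      eval (xs h) (map Θ P) = Θ fun T =>
        aeval (x T (h T)) (map (Pi.evalRingHom (fun _ : ℕ => ℂ) T) P) := by
    intro P h
    have h1 := map_aevalE Θ (fun j T => x T (h T) j) P
    have h2 : (aeval (fun (j : Fin (n + 1)) T => x T (h T) j) P : ℕ → ℂ) = fun T =>
        aeval (x T (h T)) (map (Pi.evalRingHom (fun _ : ℕ => ℂ) T) P) := by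
      funext T
      exact map_aevalE (Pi.evalRingHom (fun _ : ℕ => ℂ) T) (fun j T => x T (h T) j) P
    rw [h2, MvPolynomial.aeval_eq_eval] at h1
    exact h1.symm
  let a : ℕ → ∀ i, Hs i := fun m i => hs i m
  have hzero : ∀ i h, eval (xs h) (map Θ (Fl i)) = 0 := by
    intro i h
    rw [key]
    have h1 : (fun T => aeval (x T (h T)) (map (Pi.evalRingHom (fun _ : ℕ => ℂ) T) (Fl i))) = 0 := by
      funext T
      rw [hFlm]
      exact hX T (h T) i
    rw [h1, map_zero]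
  have hnz : ∀ m, ∃ l, eval (xs (a m)) (map Θ (Gl l)) ≠ 0 := by
    intro m
    obtain ⟨l, hl⟩ := theta_ne hΘ (fun l T => aeval (x T (a m T)) (G T l)) m
      (fun T hT => hGne T m hT)
    refine ⟨l, ?_⟩
    rw [key]
    have h1 : (fun T => aeval (x T (a m T)) (map (Pi.evalRingHom (fun _ : ℕ => ℂ) T) (Gl l))) =
        fun T => aeval (x T (a m T)) (G T l) := by
      funext T
      rw [hGlm]
    rw [h1]
    exact hl
  have hxne : ∀ m, ∃ l, xs (a m) l ≠ 0 := fun m =>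
    theta_ne hΘ (fun l i => x i (a m i) l) m fun i hi => Function.ne_iff.1 (h0 i m hi)
  have hcross : ∀ m m', m ≠ m' → ∃ u v, xs (a m) u * xs (a m') v ≠ xs (a m) v * xs (a m') u := by
    intro m m' hmm
    obtain ⟨⟨u, v⟩, h1⟩ := theta_ne hΘ (fun (p : Fin (n + 1) × Fin (n + 1)) i =>
      x i (a m i) p.1 * x i (a m' i) p.2 - x i (a m i) p.2 * x i (a m' i) p.1) (max m m')
      (fun i hi => by
        obtain ⟨u, v, h1⟩ := hnp i m m' ((le_max_left _ _).trans hi) ((le_max_right _ _).trans hi) hmm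
        exact ⟨(u, v), sub_ne_zero.2 h1⟩)
    refine ⟨u, v, fun h2 => h1 ?_⟩
    have h3 : (fun i => x i (a m i) u * x i (a m' i) v - x i (a m i) v * x i (a m' i) u) =
        (fun i => x i (a m i) u) * (fun i => x i (a m' i) v) -
          (fun i => x i (a m i) v) * (fun i => x i (a m' i) u) := rfl
    change Θ (fun i => x i (a m i) u * x i (a m' i) v - x i (a m i) v * x i (a m' i) u) = 0
    rw [h3, map_sub, map_mul, map_mul]
    exact sub_eq_zero.2 h2
  obtain ⟨R, hR, hmem⟩ := hxs.tow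
  obtain ⟨Nn, hn, hfi, hres⟩ := exists_res fhyp hR
  have hq : Finite ((∀ i, Hs i) ⧸ Nn) := inferInstance
  obtain ⟨m, m', hmm, hmk⟩ := Finite.exists_ne_map_eq_of_infinite
    fun m : ℕ => (QuotientGroup.mk (a m) : (∀ i, Hs i) ⧸ Nn)
  have hco : a m' * (a m)⁻¹ ∈ Nn := hn.mem_comm (QuotientGroup.eq.1 hmk)
  obtain ⟨l, hl⟩ := hxne m
  obtain ⟨u, v, huv⟩ := hcross m m' hmm
  obtain ⟨K, i1, i2, Γ, ρ, hρ⟩ := hres (a m)
  obtain ⟨M, j1, j2, q, hq1, hq2, hq3⟩ := rat_point hmem hρ hl hco huv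
  obtain ⟨l', hl'⟩ := hnz m
  obtain ⟨T, p, h1, h2, i0, j0, h3⟩ := transfer (κ := kap Θ) (thK Θ) thK_surj (kap Θ).subtype
    (fun a => rfl) Fl (Gl l') (fun i => ⟨dF i, tld_hom _ _⟩) ⟨dG l', tld_hom _ _⟩ q
    (fun i => by
      rw [hq1 _ (dF i) ((tld_hom _ _).map Θ)]
      intro g _
      exact hzero i _)
    (by
      rw [Ne, hq1 _ (dG l') ((tld_hom _ _).map Θ)]
      intro h4
      have h5 := h4 1 Nn.one_mem
      rw [one_mul] at h5
      exact hl' h5)
    (by obtain ⟨i, hi⟩ := hq3; exact ⟨i, l, hq2, hi⟩)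
  -- the rational curve in a term of the sequence
  have h4 : ∀ i, aeval p (F T i) = 0 := fun i => by rw [← hFlm]; exact h1 i
  have h5 : aeval (fun i => (p i).eval 1) (G T l') ≠ 0 := by rw [← hGlm]; exact h2
  apply h5
  rw [ev_poly]
  have h6 : ∃ t, (p i0).eval t * (p j0).eval 1 ≠ (p j0).eval t * (p i0).eval 1 := by
    by_contra h7
    push Not at h7
    apply h3
    apply Polynomial.funext
    intro t
    rw [Polynomial.eval_mul, Polynomial.eval_mul, Polynomial.eval_C, Polynomial.eval_C]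
    exact h7 t
  obtain ⟨t, ht⟩ := h6
  rw [hrat T ℂ p h4 ⟨t, 1, i0, j0, ht⟩ l', Polynomial.eval_zero]

end Pool.Agent.R393.UO
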