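import Pool.Agent.R393.UO.Red
import Pool.Agent.Y899.IL.Ev

/-!
The uniform bound over all fields of characteristic zero.
-/

set_option autoImplicit false

namespace Pool.Agent.R393.UO

open MvPolynomial Pool.Agent.Y377.ST
open Pool.Agent.R849.PR (RatIn)

/-- pulling back a family along a homomorphism of groups -/
theorem IterVec.comap {L H H' : Type} [CommRing L] [Group H] [Group H'] {s r e n : ℕ}
    (φ : H' →* H) {x : H → Fin n → L} (hx : IterVec s r e x) :
    IterVec s r e fun h => x (φ h) := by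
  obtain ⟨X, Y, hX, hc⟩ := hx
  refine ⟨fun l h => X l (φ h), fun l h => Y l (φ h), ⟨fun l h => hX.inv l (φ h), ?_⟩, ?_⟩
  · intro l g i j
    obtain ⟨c, hc⟩ := hX.coc l (φ g) i j
    refine ⟨c, fun h => ?_⟩
    have h1 := hc (φ h)
    rw [← map_mul] at h1
    exact h1
  · intro j
    obtain ⟨c, hc⟩ := hc j
    exact ⟨c, fun h => hc (φ h)⟩

/-- a countable family of definition -/
theorem IterVec.descend {L H : Type} [Field L] [Group H] [Countable H] {s r e n : ℕ}
    {x : H → Fin n → L} (hx : IterVec s r e x) (S0 : Set L) (hS0 : S0.Countable) :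
    ∃ K : Subfield L, Countable K ∧ S0 ⊆ K ∧ ∃ x0 : H → Fin n → K, IterVec s r e x0 ∧
      ∀ h j, (x0 h j : L) = x h j := by
  classical
  obtain ⟨X, Y, hX, hc⟩ := hx
  choose c hc using hc
  choose c' hc' using hX.coc
  set S : Set L := S0 ∪ (Set.range (fun t : Fin s × H × Fin r × Fin r => X t.1 t.2.1 t.2.2.1 t.2.2.2) ∪
    (Set.range (fun t : Fin s × H × Fin r × Fin r => Y t.1 t.2.1 t.2.2.1 t.2.2.2) ∪
    (Set.range (fun t : Fin n × (Ix s r → Fin (e + 1)) => c t.1 t.2) ∪
    Set.range (fun t : Fin s × H × Fin r × Fin r × (Ix s r → Fin (e + 1)) =>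
      c' t.1 t.2.1 t.2.2.1 t.2.2.2.1 t.2.2.2.2)))) with hS
  have hSc : S.Countable :=
    hS0.union ((Set.countable_range _).union ((Set.countable_range _).union
      ((Set.countable_range _).union (Set.countable_range _))))
  let K := Subfield.closure S
  have hKc : Countable K := by
    rw [← Cardinal.mk_le_aleph0_iff]
    refine (Subfield.cardinalMk_closure_le_max S).trans ?_
    exact max_le (Cardinal.le_aleph0_iff_set_countable.2 hSc) le_rfl
  have hsub : S ⊆ K := Subfield.subset_closure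
  have hXm : ∀ l h i j, X l h i j ∈ K := fun l h i j =>
    hsub (Or.inr (Or.inl ⟨(l, h, i, j), rfl⟩))
  have hYm : ∀ l h i j, Y l h i j ∈ K := fun l h i j =>
    hsub (Or.inr (Or.inr (Or.inl ⟨(l, h, i, j), rfl⟩)))
  have hcm : ∀ j m, c j m ∈ K := fun j m =>
    hsub (Or.inr (Or.inr (Or.inr (Or.inl ⟨(j, m), rfl⟩))))
  have hcm' : ∀ l g i j m, c' l g i j m ∈ K := fun l g i j m =>
    hsub (Or.inr (Or.inr (Or.inr (Or.inr ⟨(l, g, i, j, m), rfl⟩))))
  let X0 : Fin s → H → Matrix (Fin r) (Fin r) K := fun l h => Matrix.of fun i j => ⟨X l h i j, hXm l h i j⟩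
  let Y0 : Fin s → H → Matrix (Fin r) (Fin r) K := fun l h => Matrix.of fun i j => ⟨Y l h i j, hYm l h i j⟩
  have hX0 : ∀ l h, (X0 l h).map K.subtype = X l h := fun l h => rfl
  have hY0 : ∀ l h, (Y0 l h).map K.subtype = Y l h := fun l h => rfl
  have hent : ∀ h, (fun v => K.subtype (entries X0 Y0 h v)) = entries X Y h := by
    intro h
    funext v
    rw [← entries_map]
    rfl
  let x0 : H → Fin n → K := fun h j => pev (fun m => ⟨c j m, hcm j m⟩) (entries X0 Y0 h)
  have hx0 : ∀ h j, (x0 h j : L) = x h j := by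
    intro h j
    change K.subtype (pev (fun m => (⟨c j m, hcm j m⟩ : K)) (entries X0 Y0 h)) = x h j
    rw [map_pev, hent, hc]
    rfl
  refine ⟨K, hKc, fun a ha => hsub (Or.inl ha), x0, ⟨X0, Y0, ⟨fun l h => ?_, fun l g i j => ?_⟩,
    fun j => ⟨_, fun h => rfl⟩⟩, hx0⟩
  · apply Matrix.map_injective K.subtype.injective
    change (X0 l h * Y0 l h).map K.subtype = (1 : Matrix (Fin r) (Fin r) K).map K.subtype
    rw [Matrix.map_mul, hX0, hY0, hX.inv, Matrix.map_one _ (map_zero K.subtype) (map_one K.subtype)]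
  · refine ⟨fun m => ⟨c' l g i j m, hcm' l g i j m⟩, fun h => ?_⟩
    apply K.subtype.injective
    have h1 : K.subtype ((X0 l (g * h) * Y0 l h) i j) = (X l (g * h) * Y l h) i j := by
      rw [← hX0, ← hY0, ← Matrix.map_mul]
      rfl
    rw [h1, hc', map_pev]
    congr 1
    rw [← hent h]
    funext v
    exact before_map K.subtype l (entries X0 Y0 h) v

/-- members of a family with different points -/
theorem exists_members' {L : Type} [Field L] {n : ℕ} {κ : Type}
    {G : κ → MvPolynomial (Fin (n + 1)) L} {H : Type}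
    {x : H → Fin (n + 1) → L} {T : ℕ} (h : (T : ℕ∞) < (offPts G x).encard) :
    ∃ hs : ℕ → H, (∀ j, j ≤ T → ∃ l, aeval (x (hs j)) (G l) ≠ 0) ∧
      (∀ j, j ≤ T → x (hs j) ≠ 0) ∧
      ∀ j j', j ≤ T → j' ≤ T → j ≠ j' →
        ∃ u v, x (hs j) u * x (hs j') v ≠ x (hs j) v * x (hs j') u := by
  classical
  obtain ⟨P, hP1, hP2⟩ := exists_pts h
  obtain ⟨h00, -⟩ := hP1 0 (Nat.zero_le _)
  have hex : ∀ j, ∃ h : H, j ≤ T → ∃ h0 : x h ≠ 0, (∃ l, aeval (x h) (G l) ≠ 0) ∧
      P j = Projectivization.mk L (x h) h0 := by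
    intro j
    by_cases hj : j ≤ T
    · obtain ⟨h, h0, h1, h2⟩ := hP1 j hj
      exact ⟨h, fun _ => ⟨h0, h1, h2⟩⟩
    · exact ⟨h00, fun h1 => absurd h1 hj⟩
  choose hs hhs using hex
  refine ⟨hs, fun j hj => (hhs j hj).2.1, fun j hj => (hhs j hj).1, fun j j' hj hj' hne => ?_⟩
  by_contra hcon
  push Not at hcon
  obtain ⟨h0, -, h1⟩ := hhs j hj
  obtain ⟨h0', -, h1'⟩ := hhs j' hj'
  apply hne
  apply hP2 j j' hj hj'
  rw [h1, h1', Projectivization.mk_eq_mk_iff']
  obtain ⟨v0, hv0⟩ := Function.ne_iff.1 h0'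
  have hv0' : x (hs j') v0 ≠ 0 := hv0
  refine ⟨x (hs j) v0 / x (hs j') v0, ?_⟩
  funext u
  rw [Pi.smul_apply, smul_eq_mul]
  have h2 := hcon u v0
  rw [div_mul_eq_mul_div, ← h2, mul_div_assoc, div_self hv0', mul_one]

/-- the converse -/
theorem card_of_members {L : Type} [Field L] {n : ℕ} {κ : Type}
    {G : κ → MvPolynomial (Fin (n + 1)) L} {H : Type}
    {x : H → Fin (n + 1) → L} {T : ℕ} (hs : ℕ → H)
    (h1 : ∀ j, j ≤ T → ∃ l, aeval (x (hs j)) (G l) ≠ 0) (h2 : ∀ j, j ≤ T → x (hs j) ≠ 0)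
    (h3 : ∀ j j', j ≤ T → j' ≤ T → j ≠ j' →
        ∃ u v, x (hs j) u * x (hs j') v ≠ x (hs j) v * x (hs j') u) :
    (T : ℕ∞) < (offPts G x).encard := by
  classical
  let f : Fin (T + 1) → Projectivization L (Fin (n + 1) → L) := fun j =>
    Projectivization.mk L (x (hs j)) (h2 j (Nat.lt_succ_iff.1 j.2))
  have hf : Function.Injective f := by
    intro j j' hjj
    by_contra hne
    obtain ⟨u, v, huv⟩ := h3 j j' (Nat.lt_succ_iff.1 j.2) (Nat.lt_succ_iff.1 j'.2)
      (fun h => hne (Fin.ext h))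
    apply huv
    obtain ⟨a, ha⟩ := (Projectivization.mk_eq_mk_iff' _ _ _ _ _).1 hjj
    rw [← ha]
    simp only [Pi.smul_apply, smul_eq_mul]
    ring
  have h4 : Set.range f ⊆ offPts G x := by
    rintro _ ⟨j, rfl⟩
    exact ⟨hs j, _, h1 j (Nat.lt_succ_iff.1 j.2), rfl⟩
  have h5 : (Set.range f).encard = ((T + 1 : ℕ) : ℕ∞) := by
    rw [← Set.image_univ, hf.encard_image, Set.encard_univ, ENat.card_eq_coe_fintype_card,
      Fintype.card_fin]
  have h6 := Set.encard_le_encard h4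
  rw [h5] at h6
  refine lt_of_lt_of_le ?_ h6
  exact_mod_cast Nat.lt_succ_self T

/-- the bound -/
noncomputable def BB (n d s r e : ℕ) : ℕ :=
  Classical.choose (core (n := n) (ι := JJ n d) (κ := JJ n d) (fun a => (a.1 : ℕ))
    (fun a => (a.1 : ℕ)) s r e)

theorem BB_spec (n d s r e : ℕ) : ∀ (F G : JJ n d → MvPolynomial (Fin (n + 1)) ℂ),
      (∀ i, (F i).IsHomogeneous (i.1 : ℕ)) → (∀ l, (G l).IsHomogeneous (l.1 : ℕ)) → RatIn F G →
      ∀ (H : Type) [Group H] (x : H → Fin (n + 1) → ℂ), IterVec s r e x →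
        (∀ h i, aeval (x h) (F i) = 0) → (offPts G x).encard ≤ BB n d s r e :=
  Classical.choose_spec (core (n := n) (ι := JJ n d) (κ := JJ n d) (fun a => (a.1 : ℕ))
    (fun a => (a.1 : ℕ)) s r e)

/-- **The uniform bound over fields of characteristic zero.** -/
theorem gen {L : Type} [Field L] [CharZero L] {n d : ℕ} {ι κ : Type}
    (F : ι → MvPolynomial (Fin (n + 1)) L) (G : κ → MvPolynomial (Fin (n + 1)) L)
    (hF : ∀ i, ∃ e, e ≤ d ∧ (F i).IsHomogeneous e) (hG : ∀ i, ∃ e, e ≤ d ∧ (G i).IsHomogeneous e)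
    (hrat : RatIn F G) (s r e : ℕ) (H : Type) [Group H] (x : H → Fin (n + 1) → L)
    (hx : IterVec s r e x) (hX : ∀ h i, aeval (x h) (F i) = 0) :
    (offPts G x).encard ≤ BB n d s r e := by
  classical
  by_contra hcon
  obtain ⟨hs, m1, m2, m3⟩ := exists_members' (not_le.1 hcon)
  obtain ⟨f, g, f1, g1, hfg, hy⟩ := reduce_all F G hF hG hrat
  let φ : FreeGroup ℕ →* H := FreeGroup.lift hs
  have hφ : ∀ j, φ (FreeGroup.of j) = hs j := fun j => FreeGroup.lift_apply_of
  have hcF : Countable (FreeGroup ℕ) := by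
    unfold FreeGroup
    infer_instance
  -- a countable field of definition
  let S0 : Set L := ⋃ a : JJ n d, (Set.range (fun m => coeff m (f a)) ∪ Set.range (fun m => coeff m (g a)))
  have hS0 : S0.Countable := Set.countable_iUnion fun a =>
    (Set.countable_range _).union (Set.countable_range _)
  obtain ⟨K, hK, hSK, x0, hx0, hxx⟩ := IterVec.descend (IterVec.comap φ hx) S0 hS0
  have hlift : ∀ P : MvPolynomial (Fin (n + 1)) L, (∀ m, coeff m P ∈ K) →
      ∃ P0 : MvPolynomial (Fin (n + 1)) K, map K.subtype P0 = P := by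
    intro P hP
    refine ⟨∑ m ∈ P.support, monomial m ⟨coeff m P, hP m⟩, ?_⟩
    rw [map_sum]
    conv_rhs => rw [P.as_sum]
    refine Finset.sum_congr rfl fun m _ => ?_
    rw [map_monomial]
    rfl
  choose f0 hf0 using fun a => hlift (f a) fun m =>
    hSK (Set.mem_iUnion.2 ⟨a, Or.inl ⟨m, rfl⟩⟩)
  choose g0 hg0 using fun a => hlift (g a) fun m =>
    hSK (Set.mem_iUnion.2 ⟨a, Or.inr ⟨m, rfl⟩⟩)
  have hhom : ∀ (P : MvPolynomial (Fin (n + 1)) K) (e : ℕ), (map K.subtype P).IsHomogeneous e →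
      P.IsHomogeneous e := by
    intro P e hP m hm
    apply hP
    rw [coeff_map]
    exact (map_ne_zero K.subtype).2 hm
  obtain ⟨τ⟩ := Pool.Agent.Y899.ILPER.emb_complex K
  have hr : RatIn (fun a => map τ (f0 a)) (fun a => map τ (g0 a)) := by
    apply ratIn_comp K.subtype τ f0 g0
    have h1 : (fun a => map K.subtype (f0 a)) = f := funext hf0
    have h2 : (fun a => map K.subtype (g0 a)) = g := funext hg0
    rw [h1, h2]
    exact hfg
  have hev0 : ∀ (P : MvPolynomial (Fin (n + 1)) K) h,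
      K.subtype (aeval (x0 h) P) = aeval (x (φ h)) (map K.subtype P) := by
    intro P h
    rw [map_aevalE]
    have h1 : (fun i => K.subtype (x0 h i)) = x (φ h) := funext fun j => hxx h j
    rw [h1]
  have h1 := BB_spec n d s r e (fun a => map τ (f0 a)) (fun a => map τ (g0 a))
    (fun a => (hhom (f0 a) _ (by rw [hf0]; exact f1 a)).map τ)
    (fun a => (hhom (g0 a) _ (by rw [hg0]; exact g1 a)).map τ) hr (FreeGroup ℕ)
    (fun h j => τ (x0 h j)) (hx0.map τ) (by
      intro h a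
      rw [← map_aevalE]
      have h2 : aeval (x0 h) (f0 a) = 0 := by
        apply K.subtype.injective
        rw [hev0, hf0, map_zero]
        exact (hy (x (φ h)) (hX (φ h))).1 a
      rw [h2, map_zero])
  refine absurd (card_of_members (G := fun a => map τ (g0 a)) (x := fun h j => τ (x0 h j))
    (T := BB n d s r e) FreeGroup.of ?_ ?_ ?_) (not_lt.2 h1)
  · intro j hj
    obtain ⟨a, ha⟩ := (hy (x (hs j)) (hX (hs j))).2 (m1 j hj)
    refine ⟨a, ?_⟩
    rw [← map_aevalE]
    refine (map_ne_zero τ).2 fun h2 => ha ?_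
    have h3 := hev0 (g0 a) (FreeGroup.of j)
    rw [h2, map_zero, hg0, hφ] at h3
    exact h3.symm
  · intro j hj h2
    apply m2 j hj
    funext u
    have h3 := congrFun h2 u
    have h4 : x0 (FreeGroup.of j) u = 0 := (map_eq_zero τ).1 h3
    have h5 := hxx (FreeGroup.of j) u
    rw [h4, hφ] at h5
    exact h5.symm
  · intro j j' hj hj' hne
    obtain ⟨u, v, huv⟩ := m3 j j' hj hj' hne
    refine ⟨u, v, fun h2 => huv ?_⟩
    rw [← map_mul, ← map_mul] at h2
    have h3 := congrArg K.subtype (τ.injective h2)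
    rw [map_mul, map_mul] at h3
    change ((x0 (FreeGroup.of j) u : K) : L) * (x0 (FreeGroup.of j') v : K) =
      (x0 (FreeGroup.of j) v : K) * (x0 (FreeGroup.of j') u : K) at h3
    rw [hxx, hxx, hxx, hxx, hφ, hφ] at h3
    exact h3

end Pool.Agent.R393.UO
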