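import Pool.Agent.Y837.ST.Uni
import Pool.Agent.TH717.GO.Alg
import Pool.Agent.R393.UO.Lim

/-!
Curves over function fields and over the field of limits.
-/

set_option autoImplicit false

namespace Pool.Agent.R393.UO

open Pool.Agent.Y837.ST Pool.Agent.H533R3.SL
open scoped Polynomial

variable {k M : Type} [Field k] [Field M] [Algebra k M]

/-- from rational functions to polynomials, normalised at `1` -/
theorem uni_of {n : ℕ} {ι : Type} (F : ι → MvPolynomial (Fin (n + 1)) k)
    (G : MvPolynomial (Fin (n + 1)) k) (hF : ∀ i, ∃ e, (F i).IsHomogeneous e)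
    (hG : ∃ e, G.IsHomogeneous e) (q : Fin (n + 1) → RatFunc M) [CharZero M]
    (hq : ∀ i, MvPolynomial.aeval q (F i) = 0) (hqG : MvPolynomial.aeval q G ≠ 0)
    (hc : ∃ i l, q l ≠ 0 ∧ ∀ c : M, q i / q l ≠ algebraMap M (RatFunc M) c) :
    ∃ (L : Type) (_ : Field L) (_ : Algebra k L) (p : Fin (n + 1) → Polynomial L),
      (∀ i, MvPolynomial.aeval p (F i) = 0) ∧
      MvPolynomial.aeval (fun i => (p i).eval 1) G ≠ 0 ∧
      ∃ i j, p i * Polynomial.C ((p j).eval 1) ≠ p j * Polynomial.C ((p i).eval 1) := by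
  classical
  obtain ⟨i, l, hl, hc⟩ := hc
  obtain ⟨⟨d, hd⟩, hda⟩ := IsLocalization.exist_integer_multiples_of_finite
    (nonZeroDivisors M[X]) q
  have hd0 : algebraMap M[X] (RatFunc M) d ≠ 0 := by
    rw [Ne, FaithfulSMul.algebraMap_eq_zero_iff]
    exact nonZeroDivisors.ne_zero hd
  choose a ha using hda
  have ha' : ∀ j, algebraMap M[X] (RatFunc M) (a j) = algebraMap M[X] (RatFunc M) d * q j := by
    intro j
    rw [ha j]
    exact Algebra.smul_def d (q j)
  have hform : ∀ (e : ℕ) (F : MvPolynomial (Fin (n + 1)) k), F.IsHomogeneous e →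
      MvPolynomial.aeval (fun j => algebraMap M[X] (RatFunc M) (a j)) F =
        (algebraMap M[X] (RatFunc M) d) ^ e * MvPolynomial.aeval q F := by
    intro e F hF
    have h1 : (fun j => algebraMap M[X] (RatFunc M) (a j)) =
        fun j => algebraMap M[X] (RatFunc M) d * q j := funext ha'
    rw [h1, aeval_scale _ _ hF]
  refine ⟨RatFunc M, inferInstance, inferInstance, fun j => Sh (a j), ?_, ?_, ?_⟩
  · intro i
    obtain ⟨e, he⟩ := hF i
    have h2 : MvPolynomial.aeval a (F i) = 0 := by
      have h3 : algebraMap M[X] (RatFunc M) (MvPolynomial.aeval a (F i)) = 0 := by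
        rw [← MvPolynomial.aeval_algebraMap_apply]
        have h4 := hform e (F i) he
        rw [hq i, mul_zero] at h4
        exact h4
      exact (FaithfulSMul.algebraMap_eq_zero_iff _ _).1 h3
    have h5 : Sh (MvPolynomial.aeval a (F i)) = MvPolynomial.aeval (fun j => Sh (a j)) (F i) := by
      rw [MvPolynomial.aeval_def, MvPolynomial.eval₂_comp_left, Sh_alg]
      rfl
    rw [← h5, h2, map_zero]
  · obtain ⟨e, he⟩ := hG
    have h1 : (fun j => (Sh (a j)).eval 1) = fun j => algebraMap M[X] (RatFunc M) (a j) :=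
      funext fun j => Sh_one (a j)
    show MvPolynomial.aeval (fun j => (Sh (a j)).eval 1) G ≠ 0
    rw [h1, hform e G he]
    exact mul_ne_zero (pow_ne_zero _ hd0) hqG
  · refine ⟨i, l, fun heq => ?_⟩
    have heq' : Sh (a i) * Polynomial.C ((Sh (a l)).eval 1) =
        Sh (a l) * Polynomial.C ((Sh (a i)).eval 1) := heq
    have hal : a l ≠ 0 := by
      intro h
      have h1 := ha' l
      rw [h, map_zero] at h1
      exact mul_ne_zero hd0 hl h1.symm
    obtain ⟨c, hcl⟩ : ∃ c : M, (a l).eval c ≠ 0 := by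
      by_contra hcon
      push Not at hcon
      exact hal (Polynomial.funext fun r => by rw [hcon r, Polynomial.eval_zero])
    have h1 := congrArg (Polynomial.eval (1 - RatFunc.X + algebraMap M (RatFunc M) c)) heq'
    rw [Polynomial.eval_mul, Polynomial.eval_mul, Polynomial.eval_C, Polynomial.eval_C, Sh_const,
      Sh_const, Sh_one, Sh_one, ha', ha'] at h1
    apply hc ((a i).eval c / (a l).eval c)
    have hcl' : algebraMap M (RatFunc M) ((a l).eval c) ≠ 0 := by
      rw [Ne, map_eq_zero]
      exact hcl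
    rw [map_div₀, div_eq_div_iff hl hcl']
    apply mul_left_cancel₀ hd0
    linear_combination -h1

/-- curves over an extension of an algebraically closed field give curves over this field -/
theorem spec_closed [IsAlgClosed k] {n : ℕ} {ι : Type} (F : ι → MvPolynomial (Fin (n + 1)) k)
    (G : MvPolynomial (Fin (n + 1)) k) {L : Type} [Field L] [Algebra k L]
    (p : Fin (n + 1) → Polynomial L) (hp : ∀ i, MvPolynomial.aeval p (F i) = 0)
    (hG : MvPolynomial.aeval (fun i => (p i).eval 1) G ≠ 0)
    (hc : ∃ i j, p i * Polynomial.C ((p j).eval 1) ≠ p j * Polynomial.C ((p i).eval 1)) :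
    ∃ p' : Fin (n + 1) → Polynomial k, (∀ i, MvPolynomial.aeval p' (F i) = 0) ∧
      MvPolynomial.aeval (fun i => (p' i).eval 1) G ≠ 0 ∧
      ∃ i j, p' i * Polynomial.C ((p' j).eval 1) ≠ p' j * Polynomial.C ((p' i).eval 1) := by
  classical
  obtain ⟨N, hN⟩ : ∃ N : ℕ, ∀ i m, N ≤ m → (p i).coeff m = 0 := by
    refine ⟨∑ i, (p i).natDegree + 1, fun i m hm => Polynomial.coeff_eq_zero_of_natDegree_lt ?_⟩
    have : (p i).natDegree ≤ ∑ i, (p i).natDegree :=
      Finset.single_le_sum (f := fun i => (p i).natDegree) (fun _ _ => Nat.zero_le _)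
        (Finset.mem_univ i)
    omega
  obtain ⟨K, i1, i2, i3, v, h1, ⟨i, j, h2⟩, h3⟩ := Pool.Agent.TH717.GO.specialise_fin k L p
    (Set.range F) (by rintro _ ⟨i, rfl⟩; exact hp i) N hN hc G hG
  have hsurj : Function.Bijective (algebraMap k K) :=
    IsAlgClosed.algebraMap_bijective_of_isIntegral
  let e : k ≃ₐ[k] K := AlgEquiv.ofBijective (Algebra.ofId k K) hsurj
  let p' : Fin (n + 1) → Polynomial k := fun i => (cur v (fun j => (j : ℕ)) i).map (e.symm : K →+* k)
  have he : (e.symm : K →+* k).comp (algebraMap k K) = RingHom.id k := by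
    ext c
    exact e.symm.commutes c
  have hev : ∀ i, (p' i).eval 1 = e.symm ((cur v (fun j => (j : ℕ)) i).eval 1) := by
    intro i
    have := Polynomial.eval_map_apply (f := (e.symm : K →+* k)) (p := cur v (fun j => (j : ℕ)) i) (x := 1)
    rw [map_one] at this
    exact this
  refine ⟨p', fun i => ?_, ?_, i, j, ?_⟩
  · have h4 := congrArg (Polynomial.mapRingHom (e.symm : K →+* k)) (h1 (F i) ⟨i, rfl⟩)
    rw [map_zero, MvPolynomial.aeval_def, MvPolynomial.hom_eval₂] at h4
    rw [← h4, MvPolynomial.aeval_def]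
    congr 1
    ext c : 1
    rw [RingHom.comp_apply, Polynomial.algebraMap_apply, Polynomial.algebraMap_apply,
      Polynomial.coe_mapRingHom, Polynomial.map_C]
    congr 1
    exact (e.symm.commutes c).symm
  · intro h4
    apply h3
    apply e.symm.injective
    rw [map_zero, ← h4]
    have h5 : (fun i => (p' i).eval 1) = fun i => e.symm ((cur v (fun j => (j : ℕ)) i).eval 1) :=
      funext hev
    show e.symm (MvPolynomial.aeval _ G) = MvPolynomial.aeval (fun i => (p' i).eval 1) G
    rw [h5]
    exact MvPolynomial.comp_aeval_apply (f := fun i => (cur v (fun j => (j : ℕ)) i).eval 1)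
      (e.symm : K →ₐ[k] k) G
  · intro h4
    apply h2
    apply Polynomial.map_injective (e.symm : K →+* k) e.symm.injective
    rw [hev, hev] at h4
    rw [Polynomial.map_mul, Polynomial.map_mul, Polynomial.map_C, Polynomial.map_C]
    exact h4

end Pool.Agent.R393.UO
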